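import Mathlib

open Matrix Finset

namespace Pool.Agent.Results.MP_dbbe21_pr.RankDisproof

/-!
# Maximum-likelihood marginal kernels can have rank larger than every training subset

For every `k ≥ 2` we exhibit a training set of subsets of `{1, ..., k+1}`, each with at most `k`
elements (`n` copies of the empty set, with `n` large, and every `k`-element subset once), such that
every maximum-likelihood marginal kernel has rank `> k` (so it is invertible).  Maximum-likelihood
kernels exist (compactness), so the statement is not vacuous.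

Idea: a marginal kernel `K` of rank `≤ k` on `k+1` points has an eigenvalue `0`; with
`l_1, ..., l_k` the other eigenvalues, `Pr[X = ∅] = ∏ (1 - l_i)` and
`∑_{|S| = k} Pr[X = S] = ∏ l_i`, so by the inequality of the arithmetic and geometric means
`L(K) ≤ ∏ (1 - l_i)^n l_i^(k+1) / (k+1)^(k+1)`.  This is beaten by the kernel `(k/n) • 1`,
because `(k+1)^(k-1) < k^k` for `k ≥ 2`.
-/

/-- A marginal kernel: a real symmetric matrix all of whose eigenvalues lie in `[0,1]`. -/
def IsMarginalKernel {N : ℕ} (K : Matrix (Fin N) (Fin N) ℝ) : Prop :=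
  ∃ hK : K.IsHermitian, ∀ i, 0 ≤ hK.eigenvalues i ∧ hK.eigenvalues i ≤ 1

/-- `p` is the law of the determinantal point process with marginal kernel `K`: it is a probability
distribution on the subsets of `{1, ..., N}` and `∑_{T ⊇ S} p T = det K_S` for every `S`.
(For a marginal kernel exactly one such `p` exists, see `existsUnique_isDPP` below.) -/
def IsDPP {N : ℕ} (K : Matrix (Fin N) (Fin N) ℝ) (p : Finset (Fin N) → ℝ) : Prop :=
  (∀ S, 0 ≤ p S) ∧ (∑ S, p S = 1) ∧
    ∀ S : Finset (Fin N), ∑ T ∈ univ.filter (fun T => S ⊆ T), p T =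
      (K.submatrix (Subtype.val : S → Fin N) (Subtype.val : S → Fin N)).det

/-- The likelihood of the training set `X` under the law `p`. -/
def likelihood {N m : ℕ} (X : Fin m → Finset (Fin N)) (p : Finset (Fin N) → ℝ) : ℝ :=
  ∏ t, p (X t)

/-- `K` is a maximum-likelihood marginal kernel for the training set `X`: it is a marginal kernel
and no marginal kernel `K'` has a larger likelihood. -/
def IsOptimal {N m : ℕ} (X : Fin m → Finset (Fin N)) (K : Matrix (Fin N) (Fin N) ℝ) : Prop :=
  IsMarginalKernel K ∧ ∃ p, IsDPP K p ∧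
    ∀ K' p', IsMarginalKernel K' → IsDPP K' p' → likelihood X p' ≤ likelihood X p

section aux

variable {N : ℕ}

/-- principal minor -/
noncomputable def pminor (K : Matrix (Fin N) (Fin N) ℝ) (S : Finset (Fin N)) : ℝ :=
  (K.submatrix (Subtype.val : S → Fin N) (Subtype.val : S → Fin N)).det

/-- Moebius inversion of the principal minors -/
noncomputable def mob (K : Matrix (Fin N) (Fin N) ℝ) (S : Finset (Fin N)) : ℝ :=
  ∑ T ∈ univ.filter (fun T => S ⊆ T), (-1) ^ (T \ S).card * pminor K T

theorem sum_Icc_neg_one (S U : Finset (Fin N)) :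
    ∑ T ∈ Finset.Icc S U, (-1 : ℝ) ^ (T \ S).card = if U = S then 1 else 0 := by
  by_cases hSU : S ⊆ U
  · rw [Finset.Icc_eq_image_powerset hSU, Finset.sum_image]
    · have h1 : ∀ R ∈ (U \ S).powerset, (-1 : ℝ) ^ ((S ∪ R) \ S).card = (-1) ^ R.card := by
        intro R hR
        rw [Finset.mem_powerset] at hR
        congr 2
        ext x
        simp only [Finset.mem_sdiff, Finset.mem_union]
        constructor
        · rintro ⟨h | h, h'⟩
          · exact absurd h h'
          · exact h
        · intro h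
          exact ⟨Or.inr h, (Finset.mem_sdiff.1 (hR h)).2⟩
      rw [Finset.sum_congr rfl h1]
      have h2 := @Finset.sum_powerset_neg_one_pow_card (Fin N) _ (U \ S)
      have h3 : (∑ m ∈ (U \ S).powerset, (-1 : ℝ) ^ m.card) = ((∑ m ∈ (U \ S).powerset, (-1 : ℤ) ^ m.card : ℤ) : ℝ) := by
        push_cast; rfl
      rw [h3, h2]
      by_cases h : U = S
      · subst h; simp
      · have : U \ S ≠ ∅ := by
          intro h'
          rw [Finset.sdiff_eq_empty_iff_subset] at h'
          exact h (Finset.Subset.antisymm h' hSU)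
        simp [h, this]
    · intro R hR R' hR' h
      have hR1 : R ⊆ U \ S := Finset.mem_powerset.1 (Finset.mem_coe.1 hR)
      have hR2 : R' ⊆ U \ S := Finset.mem_powerset.1 (Finset.mem_coe.1 hR')
      ext x
      have hx := congrArg (fun A => x ∈ A) h
      simp only [Finset.mem_union, eq_iff_iff] at hx
      constructor
      · intro hxR
        have := (Finset.mem_sdiff.1 (hR1 hxR)).2
        tauto
      · intro hxR
        have := (Finset.mem_sdiff.1 (hR2 hxR)).2
        tauto
  · have : Finset.Icc S U = ∅ := by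
      rw [Finset.Icc_eq_empty_iff]; exact hSU
    rw [this]
    have h : U ≠ S := by rintro rfl; exact hSU (Finset.Subset.refl _)
    simp [h]

theorem eq_mob {K : Matrix (Fin N) (Fin N) ℝ} {p : Finset (Fin N) → ℝ}
    (h : ∀ S, ∑ T ∈ univ.filter (fun T => S ⊆ T), p T = pminor K S) (S : Finset (Fin N)) :
    p S = mob K S := by
  unfold mob
  have h1 : ∀ T ∈ univ.filter (fun T : Finset (Fin N) => S ⊆ T),
      (-1 : ℝ) ^ (T \ S).card * pminor K T =
        ∑ U, if S ⊆ T ∧ T ⊆ U then (-1) ^ (T \ S).card * p U else 0 := by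
    intro T hT
    rw [Finset.mem_filter] at hT
    rw [← h T, Finset.mul_sum, Finset.sum_filter]
    apply Finset.sum_congr rfl
    intro U _
    by_cases hTU : T ⊆ U
    · simp [hT.2, hTU]
    · simp [hTU]
  rw [Finset.sum_congr rfl h1]
  rw [Finset.sum_comm]
  have h2 : ∀ U ∈ (univ : Finset (Finset (Fin N))),
      (∑ T ∈ univ.filter (fun T : Finset (Fin N) => S ⊆ T),
        if S ⊆ T ∧ T ⊆ U then (-1 : ℝ) ^ (T \ S).card * p U else 0) = if U = S then p U else 0 := by
    intro U _
    have h3 : (∑ T ∈ univ.filter (fun T : Finset (Fin N) => S ⊆ T),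
        if S ⊆ T ∧ T ⊆ U then (-1 : ℝ) ^ (T \ S).card * p U else 0) =
        (∑ T ∈ Finset.Icc S U, (-1 : ℝ) ^ (T \ S).card) * p U := by
      rw [Finset.sum_mul, ← Finset.sum_filter]
      apply Finset.sum_congr
      · ext T
        simp only [Finset.mem_filter, Finset.mem_univ, true_and, Finset.mem_Icc]
        tauto
      · intro _ _; rfl
    rw [h3, sum_Icc_neg_one]
    split_ifs <;> simp
  rw [Finset.sum_congr rfl h2]
  simp

theorem det_add_expand (A B : Matrix (Fin N) (Fin N) ℝ) :
    (A + B).det = ∑ T : Finset (Fin N), (Matrix.of (T.piecewise A B)).det := by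
  have h := (detRowAlternating : (Fin N → ℝ) [⋀^Fin N]→ₗ[ℝ] ℝ).map_add_univ A B
  exact h

theorem sum_pminor_superset (L : Matrix (Fin N) (Fin N) ℝ) (S : Finset (Fin N)) :
    ∑ T ∈ univ.filter (fun T => S ⊆ T), pminor L T =
      (L + Matrix.diagonal (fun i => if i ∈ S then (0:ℝ) else 1)).det := by
  rw [det_add_expand, Finset.sum_filter]
  apply Finset.sum_congr rfl
  intro T _
  split_ifs with hST
  · rw [pminor, ← Matrix.det_piecewise_one_eq_submatrix_det]
    congr 1
    ext i j
    simp only [Matrix.of_apply, Finset.piecewise, Matrix.row]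
    split_ifs with hi
    · rfl
    · simp only [Matrix.diagonal_apply, Matrix.one_apply]
      have : i ∉ S := fun h => hi (hST h)
      simp [this]
  · rw [Finset.not_subset] at hST
    obtain ⟨i, hiS, hiT⟩ := hST
    symm
    apply Matrix.det_eq_zero_of_row_eq_zero i
    intro j
    simp only [Matrix.of_apply, Finset.piecewise, hiT, if_false, Matrix.diagonal_apply, hiS, if_true]
    simp

theorem marginal_iff (K : Matrix (Fin N) (Fin N) ℝ) :
    IsMarginalKernel K ↔ K.PosSemidef ∧ (1 - K).PosSemidef := by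
  constructor
  · rintro ⟨hK, h⟩
    have h1 : K.PosSemidef := (hK.posSemidef_iff_eigenvalues_nonneg).2 (fun i => (h i).1)
    refine ⟨h1, ?_⟩
    have h2 := hK.spectral_theorem
    rw [Unitary.conjStarAlgAut_apply] at h2
    set U : Matrix (Fin N) (Fin N) ℝ := (hK.eigenvectorUnitary : Matrix (Fin N) (Fin N) ℝ) with hU
    have hUU : U * star U = 1 := Unitary.coe_mul_star_self _
    have h3 : (1 : Matrix (Fin N) (Fin N) ℝ) - K =
        U * (Matrix.diagonal (fun i => 1 - hK.eigenvalues i)) * star U := by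
      have h4 : Matrix.diagonal (fun i => 1 - hK.eigenvalues i) =
          (1 : Matrix (Fin N) (Fin N) ℝ) - Matrix.diagonal (hK.eigenvalues) := by
        rw [← Matrix.diagonal_one, Matrix.diagonal_sub]
      rw [h4, Matrix.mul_sub, Matrix.sub_mul, Matrix.mul_one, hUU]
      congr 1
    rw [h3]
    have h5 : (Matrix.diagonal (fun i => 1 - hK.eigenvalues i)).PosSemidef := by
      apply Matrix.PosSemidef.diagonal
      intro i
      simpa using (h i).2
    exact h5.mul_mul_conjTranspose_same U
  · rintro ⟨h1, h2⟩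
    refine ⟨h1.isHermitian, fun i => ⟨h1.eigenvalues_nonneg i, ?_⟩⟩
    set v := h1.isHermitian.eigenvectorBasis i with hv
    have h3 := h2.re_dotProduct_nonneg (v : Fin N → ℝ)
    have h4 := h1.isHermitian.mulVec_eigenvectorBasis i
    rw [Matrix.sub_mulVec, Matrix.one_mulVec, h4, dotProduct_sub, dotProduct_smul] at h3
    have h5 : (star (v : Fin N → ℝ)) ⬝ᵥ (v : Fin N → ℝ) = 1 := by
      have h6 := h1.isHermitian.eigenvectorBasis.orthonormal.1 i
      have h7 : inner ℝ v v = (1 : ℝ) := by
        rw [real_inner_self_eq_norm_sq, h6]; norm_num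
      rw [EuclideanSpace.inner_eq_star_dotProduct] at h7
      rw [dotProduct_comm]
      exact h7
    rw [← hv, h5] at h3
    simpa using h3

theorem exists_law_of_invertible {K : Matrix (Fin N) (Fin N) ℝ} (h1 : K.PosSemidef)
    (h2 : (1 - K).PosDef) : ∀ S, 0 ≤ mob K S := by
  classical
  set I : Matrix (Fin N) (Fin N) ℝ := 1 - K with hI
  have hdet : IsUnit I.det := h2.isUnit.map (Matrix.detMonoidHom) 
  set L : Matrix (Fin N) (Fin N) ℝ := K * I⁻¹ with hL
  have hLI : L * I = K := by
    rw [hL, Matrix.mul_assoc, Matrix.nonsing_inv_mul _ hdet, Matrix.mul_one]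
  -- L is positive semidefinite
  have hLpsd : L.PosSemidef := by
    have hcomm : I * K = K * I := by
      rw [hI]; noncomm_ring
    have hA : (K * I * K).PosSemidef := by
      have := h2.posSemidef.conjTranspose_mul_mul_same K
      rwa [h1.isHermitian.eq] at this
    have hB : (I * K * I).PosSemidef := by
      have := h1.conjTranspose_mul_mul_same I
      rwa [h2.isHermitian.eq] at this
    have hKI : (K * I).PosSemidef := by
      have : K * I = K * I * K + I * K * I := by
        rw [hI]; noncomm_ring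
      rw [this]
      exact hA.add hB
    have hinv : (I⁻¹).IsHermitian := h2.isHermitian.inv
    have := hKI.conjTranspose_mul_mul_same (I⁻¹)
    rw [hinv.eq] at this
    have h3 : I⁻¹ * (K * I) * I⁻¹ = L := by
      rw [← hcomm, ← Matrix.mul_assoc, Matrix.nonsing_inv_mul _ hdet, Matrix.one_mul]
    rwa [h3] at this
  have key : ∀ S : Finset (Fin N), ∑ T ∈ univ.filter (fun T => S ⊆ T), (I.det * pminor L T) =
      pminor K S := by
    intro S
    rw [← Finset.mul_sum, sum_pminor_superset, mul_comm, ← Matrix.det_mul, Matrix.add_mul, hLI]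
    rw [pminor, ← Matrix.det_piecewise_one_eq_submatrix_det]
    congr 1
    ext i j
    simp only [Matrix.of_apply, Finset.piecewise, Matrix.row, Matrix.add_apply,
      Matrix.diagonal_mul]
    split_ifs with hi
    · simp
    · rw [hI]; simp [Matrix.sub_apply]
  intro S
  rw [← eq_mob key S]
  exact mul_nonneg h2.posSemidef.det_nonneg ((hLpsd.submatrix _).det_nonneg)

theorem pminor_smul (K : Matrix (Fin N) (Fin N) ℝ) (c : ℝ) (T : Finset (Fin N)) :
    pminor (c • K) T = c ^ T.card * pminor K T := by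
  unfold pminor
  rw [Matrix.submatrix_smul]
  simp

theorem mob_nonneg {K : Matrix (Fin N) (Fin N) ℝ} (hK : IsMarginalKernel K) (S : Finset (Fin N)) :
    0 ≤ mob K S := by
  rw [marginal_iff] at hK
  obtain ⟨h1, h2⟩ := hK
  have hc : ∀ c ∈ Set.Ico (0:ℝ) 1, 0 ≤ mob (c • K) S := by
    intro c hc
    apply exists_law_of_invertible
    · exact h1.smul hc.1
    · have : (1 : Matrix (Fin N) (Fin N) ℝ) - c • K =
          (1 - c) • (1 : Matrix (Fin N) (Fin N) ℝ) + c • (1 - K) := by
        rw [smul_sub, sub_smul, one_smul]; abel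
      rw [this]
      apply Matrix.PosDef.add_posSemidef
      · exact Matrix.PosDef.one.smul (by linarith [hc.2])
      · exact h2.smul hc.1
  have hcont : Continuous (fun c : ℝ => mob (c • K) S) := by
    unfold mob
    simp only [pminor_smul]
    fun_prop
  have hlim : Filter.Tendsto (fun c : ℝ => mob (c • K) S) (nhdsWithin 1 (Set.Iio 1))
      (nhds (mob ((1:ℝ) • K) S)) := (hcont.tendsto 1).mono_left nhdsWithin_le_nhds
  rw [one_smul] at hlim
  apply ge_of_tendsto hlim
  have : Set.Ico (0:ℝ) 1 ∈ nhdsWithin (1:ℝ) (Set.Iio 1) := by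
    apply Ico_mem_nhdsLT
    norm_num
  filter_upwards [this] with c hcc
  exact hc c hcc

theorem mob_incl (K : Matrix (Fin N) (Fin N) ℝ) (S : Finset (Fin N)) :
    ∑ T ∈ univ.filter (fun T => S ⊆ T), mob K T = pminor K S := by
  unfold mob
  have h1 : ∀ T ∈ univ.filter (fun T : Finset (Fin N) => S ⊆ T),
      (∑ U ∈ univ.filter (fun U => T ⊆ U), (-1 : ℝ) ^ (U \ T).card * pminor K U) =
        ∑ U, if S ⊆ T ∧ T ⊆ U then ((-1) ^ (T \ S).card) * ((-1) ^ (U \ S).card * pminor K U)
          else 0 := by
    intro T hT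
    rw [Finset.mem_filter] at hT
    rw [Finset.sum_filter]
    apply Finset.sum_congr rfl
    intro U _
    by_cases hTU : T ⊆ U
    · simp only [hTU, hT.2, and_self, if_true]
      rw [← mul_assoc]
      congr 1
      have hcard : (U \ S).card = (U \ T).card + (T \ S).card := by
        rw [← Finset.card_union_of_disjoint]
        · congr 1
          ext x
          simp only [Finset.mem_sdiff, Finset.mem_union]
          have := @hTU x
          have := @hT.2 x
          tauto
        · rw [Finset.disjoint_left]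
          intro x hx hx'
          exact (Finset.mem_sdiff.1 hx).2 (Finset.mem_sdiff.1 hx').1
      rw [hcard, pow_add, mul_comm ((-1 : ℝ) ^ (U \ T).card), ← mul_assoc, ← pow_add, ← two_mul,
        pow_mul]
      simp
    · simp [hTU]
  rw [Finset.sum_congr rfl h1]
  rw [Finset.sum_comm]
  have h2 : ∀ U ∈ (univ : Finset (Finset (Fin N))),
      (∑ T ∈ univ.filter (fun T : Finset (Fin N) => S ⊆ T),
        if S ⊆ T ∧ T ⊆ U then ((-1 : ℝ) ^ (T \ S).card) * ((-1) ^ (U \ S).card * pminor K U)
          else 0) = if U = S then pminor K U else 0 := by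
    intro U _
    have h3 : (∑ T ∈ univ.filter (fun T : Finset (Fin N) => S ⊆ T),
        if S ⊆ T ∧ T ⊆ U then ((-1 : ℝ) ^ (T \ S).card) * ((-1) ^ (U \ S).card * pminor K U)
          else 0) =
        (∑ T ∈ Finset.Icc S U, (-1 : ℝ) ^ (T \ S).card) * ((-1) ^ (U \ S).card * pminor K U) := by
      rw [Finset.sum_mul, ← Finset.sum_filter]
      apply Finset.sum_congr
      · ext T
        simp only [Finset.mem_filter, Finset.mem_univ, true_and, Finset.mem_Icc]
        tauto
      · intro _ _; rfl
    rw [h3, sum_Icc_neg_one]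
    split_ifs with h
    · subst h; simp
    · simp
  rw [Finset.sum_congr rfl h2]
  simp

theorem isDPP_mob {K : Matrix (Fin N) (Fin N) ℝ} (hK : IsMarginalKernel K) : IsDPP K (mob K) := by
  refine ⟨mob_nonneg hK, ?_, mob_incl K⟩
  have := mob_incl K ∅
  simp only [Finset.empty_subset, Finset.filter_true] at this
  rw [this, pminor]
  simp

theorem IsDPP.eq {K : Matrix (Fin N) (Fin N) ℝ} {p : Finset (Fin N) → ℝ} (h : IsDPP K p) :
    p = mob K := by
  funext S
  exact eq_mob h.2.2 S

/-- Every marginal kernel is the kernel of exactly one determinantal point process. -/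
theorem existsUnique_isDPP {K : Matrix (Fin N) (Fin N) ℝ} (hK : IsMarginalKernel K) :
    ∃! p, IsDPP K p :=
  ⟨mob K, isDPP_mob hK, fun _ hp => hp.eq⟩

theorem continuous_mob (S : Finset (Fin N)) :
    Continuous (fun K : Matrix (Fin N) (Fin N) ℝ => mob K S) := by
  unfold mob pminor
  apply continuous_finsetSum
  intro T _
  apply Continuous.mul continuous_const
  apply Continuous.matrix_det
  exact continuous_id.matrix_submatrix _ _

theorem isCompact_marginal : IsCompact {K : Matrix (Fin N) (Fin N) ℝ | IsMarginalKernel K} := by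
  have hsub : {K : Matrix (Fin N) (Fin N) ℝ | IsMarginalKernel K} ⊆
      (Set.univ.pi fun _ => Set.univ.pi fun _ => Set.Icc (-1 : ℝ) 1 :
        Set (Fin N → Fin N → ℝ)) := by
    intro K hK
    rw [Set.mem_ofPred_eq, marginal_iff] at hK
    obtain ⟨h1, h2⟩ := hK
    have hsymm : ∀ i j, K i j = K j i := by
      intro i j
      have := h1.isHermitian.apply i j
      simpa using this.symm
    refine Set.mem_univ_pi.2 fun i => Set.mem_univ_pi.2 fun j => ?_
    have hd0 : 0 ≤ K i i := h1.diag_nonneg
    have hd1 : 0 ≤ K j j := h1.diag_nonneg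
    have hd2 : 0 ≤ (1 - K) i i := h2.diag_nonneg
    rw [Matrix.sub_apply, Matrix.one_apply_eq] at hd2
    by_cases hij : i = j
    · subst hij
      constructor <;> linarith
    · -- test vectors e_i + e_j and e_i - e_j
      have hq : ∀ ε : ℝ, 0 ≤ (1 - K i i) + 2 * ε * (- K i j) + ε ^ 2 * (1 - K j j) := by
        intro ε
        have h3 := h2.re_dotProduct_nonneg (Pi.single i 1 + ε • Pi.single j 1 : Fin N → ℝ)
        simp only [star_trivial, Matrix.mulVec_add, Matrix.mulVec_smul, add_dotProduct,
          dotProduct_add, smul_dotProduct, dotProduct_smul, single_dotProduct, one_mul,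
          Matrix.mulVec_single_one, Matrix.col_apply, Matrix.sub_apply, Matrix.one_apply_eq,
          Matrix.one_apply_ne hij, Matrix.one_apply_ne (Ne.symm hij), smul_eq_mul,
          RCLike.re_to_real, hsymm j i] at h3
        nlinarith [h3]
      have e1 := hq 1
      have e2 := hq (-1)
      constructor <;> nlinarith
  have hcpt : IsCompact (Set.univ.pi fun _ => Set.univ.pi fun _ => Set.Icc (-1 : ℝ) 1 :
        Set (Fin N → Fin N → ℝ)) := by
    apply isCompact_univ_pi
    intro _
    apply isCompact_univ_pi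
    intro _
    exact isCompact_Icc
  apply IsCompact.of_isClosed_subset hcpt _ hsub
  have : {K : Matrix (Fin N) (Fin N) ℝ | IsMarginalKernel K} =
    {K | K.IsHermitian} ∩ ((⋂ x : Fin N → ℝ, {K | 0 ≤ x ⬝ᵥ (K *ᵥ x)}) ∩
      (⋂ x : Fin N → ℝ, {K | 0 ≤ x ⬝ᵥ ((1 - K) *ᵥ x)})) := by
    ext K
    simp only [Set.mem_ofPred_eq, Set.mem_inter_iff, Set.mem_iInter, marginal_iff]
    constructor
    · rintro ⟨h1, h2⟩
      refine ⟨h1.isHermitian, fun x => ?_, fun x => ?_⟩
      · simpa using h1.re_dotProduct_nonneg x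
      · simpa using h2.re_dotProduct_nonneg x
    · rintro ⟨h0, h1, h2⟩
      constructor
      · apply Matrix.PosSemidef.of_dotProduct_mulVec_nonneg h0
        intro x
        simpa using h1 x
      · apply Matrix.PosSemidef.of_dotProduct_mulVec_nonneg
        · exact Matrix.isHermitian_one.sub h0
        · intro x
          simpa using h2 x
  rw [this]
  apply IsClosed.inter
  · exact isClosed_eq (Continuous.matrix_conjTranspose continuous_id) continuous_id
  · apply IsClosed.inter
    · apply isClosed_iInter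
      intro x
      apply isClosed_le continuous_const
      exact Continuous.dotProduct continuous_const (Continuous.matrix_mulVec continuous_id continuous_const)
    · apply isClosed_iInter
      intro x
      apply isClosed_le continuous_const
      exact Continuous.dotProduct continuous_const
        (Continuous.matrix_mulVec (continuous_const.sub continuous_id) continuous_const)

theorem exists_optimal {m : ℕ} (X : Fin m → Finset (Fin N)) : ∃ K, IsOptimal X K := by
  have hcont : Continuous (fun K : Matrix (Fin N) (Fin N) ℝ => likelihood X (mob K)) := by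
    unfold likelihood
    apply continuous_finsetProd
    intro t _
    exact continuous_mob _
  have hne : {K : Matrix (Fin N) (Fin N) ℝ | IsMarginalKernel K}.Nonempty := by
    refine ⟨0, ?_⟩
    rw [Set.mem_ofPred_eq, marginal_iff]
    exact ⟨Matrix.PosSemidef.zero, by simpa using Matrix.PosSemidef.one⟩
  obtain ⟨K, hK, hmax⟩ := isCompact_marginal.exists_isMaxOn hne hcont.continuousOn
  refine ⟨K, hK, mob K, isDPP_mob hK, ?_⟩
  intro K' p' hK' hp'
  rw [hp'.eq]
  exact hmax hK'

theorem mob_empty (K : Matrix (Fin N) (Fin N) ℝ) : mob K ∅ = (1 - K).det := by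
  have h := sum_pminor_superset ((-1 : ℝ) • K) ∅
  simp only [Finset.empty_subset, Finset.filter_true, pminor_smul, Finset.notMem_empty, if_false,
    Matrix.diagonal_one] at h
  unfold mob
  simp only [Finset.empty_subset, Finset.filter_true, Finset.sdiff_empty]
  rw [h]
  congr 1
  rw [neg_smul, one_smul]; abel

theorem mob_erase {k : ℕ} (K : Matrix (Fin (k+1)) (Fin (k+1)) ℝ) (i : Fin (k+1)) :
    mob K (univ.erase i) = pminor K (univ.erase i) - K.det := by
  have h1 := mob_incl K (univ.erase i)
  have h2 := mob_incl K univ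
  have h3 : (univ.filter (fun T => (univ : Finset (Fin (k+1))) ⊆ T)) = {univ} := by
    ext T
    simp [Finset.univ_subset_iff]
  have h4 : (univ.filter (fun T => (univ.erase i : Finset (Fin (k+1))) ⊆ T)) =
      {univ.erase i, univ} := by
    ext T
    simp only [Finset.mem_filter, Finset.mem_univ, true_and, Finset.mem_insert,
      Finset.mem_singleton]
    constructor
    · intro h
      by_cases hi : i ∈ T
      · right
        ext x
        by_cases hx : x = i
        · subst hx; simpa using hi
        · simpa using h (Finset.mem_erase.2 ⟨hx, Finset.mem_univ _⟩)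
      · left
        ext x
        constructor
        · intro hx
          exact Finset.mem_erase.2 ⟨fun h' => hi (h' ▸ hx), Finset.mem_univ _⟩
        · intro hx
          exact h hx
    · rintro (h | h)
      · rw [h]
      · rw [h]; exact Finset.subset_univ _
  rw [h3, Finset.sum_singleton] at h2
  rw [h4, Finset.sum_pair] at h1
  · have h5 : pminor K univ = K.det := by
      unfold pminor
      have e : (univ : Finset (Fin (k+1))) ≃ Fin (k+1) := Equiv.subtypeUnivEquiv (by simp)
      have := Matrix.det_submatrix_equiv_self (Equiv.subtypeUnivEquiv (p := fun x => x ∈ (univ : Finset (Fin (k+1)))) (by simp)) K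
      exact this
    linarith
  · intro h
    have : i ∈ (univ.erase i : Finset (Fin (k+1))) := by rw [h]; exact Finset.mem_univ _
    simp at this

/-- The training set: `n` copies of the empty set and each `k`-subset of `Fin (k+1)` once. -/
def trainingSet (k n : ℕ) : Fin (n + (k + 1)) → Finset (Fin (k + 1)) :=
  Fin.append (fun _ => ∅) (fun i => univ.erase i)

theorem likelihood_trainingSet (k n : ℕ) (p : Finset (Fin (k+1)) → ℝ) :
    likelihood (trainingSet k n) p = p ∅ ^ n * ∏ i, p (univ.erase i) := by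
  unfold likelihood trainingSet
  rw [Fin.prod_univ_add]
  simp

theorem card_trainingSet (k n : ℕ) (t) : (trainingSet k n t).card ≤ k := by
  unfold trainingSet
  refine Fin.addCases (fun t => ?_) (fun t => ?_) t
  · simp
  · simp

theorem amgm {k : ℕ} (x : Fin (k+1) → ℝ) (hx : ∀ i, 0 ≤ x i) :
    ∏ i, x i ≤ ((∑ i, x i) / (k+1)) ^ (k+1) := by
  have h := Real.geom_mean_le_arith_mean_weighted univ (fun _ : Fin (k+1) => (1 : ℝ) / (k+1)) x
    (fun i _ => by positivity) (by
      simp only [Finset.sum_const, Finset.card_univ, Fintype.card_fin, nsmul_eq_mul]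
      push_cast
      field_simp) (fun i _ => hx i)
  have h1 : (∏ i, x i ^ ((1:ℝ)/(k+1))) ^ (k+1) = ∏ i, x i := by
    rw [← Finset.prod_pow]
    apply Finset.prod_congr rfl
    intro i _
    rw [← Real.rpow_natCast, ← Real.rpow_mul (hx i)]
    push_cast
    rw [one_div, inv_mul_cancel₀ (by positivity), Real.rpow_one]
  rw [← h1]
  apply pow_le_pow_left₀
  · exact Finset.prod_nonneg fun i _ => Real.rpow_nonneg (hx i) _
  · refine h.trans (le_of_eq ?_)
    rw [← Finset.mul_sum]; ring

theorem sum_pminor_erase {k : ℕ} (K : Matrix (Fin (k+1)) (Fin (k+1)) ℝ) :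
    ∑ i, pminor K (univ.erase i) = (-1) ^ k * K.charpoly.coeff 1 := by
  have h := Matrix.charpoly_coeff_eq_sum_minors K k (by simp)
  have h1 : Fintype.card (Fin (k+1)) - k = 1 := by simp
  rw [h1] at h
  rw [h, ← mul_assoc, ← pow_add, ← two_mul, pow_mul]
  simp only [even_two, Even.neg_pow, one_pow, one_mul]
  have himg : (univ : Finset (Fin (k+1))).powersetCard k =
      univ.image (fun i : Fin (k+1) => (univ : Finset (Fin (k+1))).erase i) := by
    ext s
    simp only [Finset.mem_powersetCard, Finset.subset_univ, true_and, Finset.mem_image,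
      Finset.mem_univ]
    constructor
    · intro hs
      have hc : sᶜ.card = 1 := by
        rw [Finset.card_compl, hs]; simp
      obtain ⟨i, hi⟩ := Finset.card_eq_one.1 hc
      refine ⟨i, ?_⟩
      ext x
      have hx : x ∈ sᶜ ↔ x ∈ ({i} : Finset (Fin (k+1))) := by rw [hi]
      simp only [Finset.mem_compl, Finset.mem_singleton] at hx
      simp only [Finset.mem_erase, Finset.mem_univ, and_true]
      tauto
    · rintro ⟨i, rfl⟩
      simp
  rw [himg, Finset.sum_image]
  · rfl
  · intro i _ j _ hij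
    by_contra hne
    have : i ∈ (univ : Finset (Fin (k+1))).erase j := Finset.mem_erase.2 ⟨hne, Finset.mem_univ _⟩
    have hij' : (univ : Finset (Fin (k+1))).erase i = univ.erase j := hij
    rw [← hij'] at this
    simp at this

theorem one_var_bound (n k : ℕ) (hn : 0 < n) (l : ℝ) (h0 : 0 ≤ l) (h1 : l ≤ 1) :
    (1 - l) ^ n * l ^ (k+1) ≤ (((k:ℝ)+1) / (Real.exp 1 * n)) ^ (k+1) := by
  have hn' : (0:ℝ) < n := by exact_mod_cast hn
  have hk' : (0:ℝ) < (k:ℝ) + 1 := by positivity
  have e1 : (1 - l) ^ n ≤ Real.exp (-(n * l)) := by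
    have : 1 - l ≤ Real.exp (-l) := by
      have := Real.add_one_le_exp (-l); linarith
    calc (1 - l) ^ n ≤ (Real.exp (-l)) ^ n := pow_le_pow_left₀ (by linarith) this n
      _ = Real.exp (-(n * l)) := by rw [← Real.exp_nat_mul]; ring_nf
  have e2 : l ≤ (((k:ℝ)+1) / n) * Real.exp (n * l / (k+1) - 1) := by
    have h := Real.add_one_le_exp (n * l / ((k:ℝ)+1) - 1)
    have h2 : n * l / ((k:ℝ)+1) ≤ Real.exp (n * l / (k+1) - 1) := by linarith
    calc l = (((k:ℝ)+1) / n) * (n * l / ((k:ℝ)+1)) := by field_simp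
      _ ≤ _ := mul_le_mul_of_nonneg_left h2 (by positivity)
  calc (1 - l) ^ n * l ^ (k+1)
      ≤ Real.exp (-(n * l)) * ((((k:ℝ)+1) / n) * Real.exp (n * l / (k+1) - 1)) ^ (k+1) := by
        apply mul_le_mul e1 (pow_le_pow_left₀ h0 e2 _) (by positivity) (Real.exp_pos _).le
    _ = _ := by
      rw [mul_pow, ← Real.exp_nat_mul]
      rw [mul_left_comm, ← Real.exp_add]
      rw [div_pow, div_pow, mul_pow, ← Real.exp_nat_mul]
      have : -(↑n * l) + ((k+1 : ℕ):ℝ) * (↑n * l / (↑k + 1) - 1) = -(((k+1 : ℕ):ℝ) * 1) := by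
        push_cast; field_simp; ring
      rw [this, Real.exp_neg]
      field_simp

theorem low_rank_bound {k n : ℕ} (hn : 0 < n) (K : Matrix (Fin (k+1)) (Fin (k+1)) ℝ)
    (hK : IsMarginalKernel K) (hr : K.rank ≤ k) :
    likelihood (trainingSet k n) (mob K) ≤
      ((((k:ℝ)+1) / (Real.exp 1 * n)) ^ k / ((k:ℝ)+1)) ^ (k+1) := by
  obtain ⟨hH, hev⟩ := hK
  have hdet : K.det = 0 := by
    by_contra hne
    have hu : IsUnit K := (Matrix.isUnit_iff_isUnit_det K).2 (isUnit_iff_ne_zero.2 hne)
    have := Matrix.rank_of_isUnit K hu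
    simp at this
    omega
  have hprod := hH.det_eq_prod_eigenvalues
  rw [hdet] at hprod
  obtain ⟨i0, -, hi0⟩ := Finset.prod_eq_zero_iff.1 hprod.symm
  have hi0' : hH.eigenvalues i0 = 0 := by simpa using hi0
  have hcp := hH.charpoly_eq
  -- the empty set
  have h0 : mob K ∅ = ∏ i ∈ univ.erase i0, (1 - hH.eigenvalues i) := by
    rw [mob_empty]
    have := Matrix.eval_charpoly K 1
    rw [Matrix.scalar_apply, Matrix.diagonal_one] at this
    rw [← this, hcp, Polynomial.eval_prod, ← Finset.mul_prod_erase univ _ (Finset.mem_univ i0)]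
    simp [hi0']
  have hcoeff : K.charpoly.coeff 1 = ∏ i ∈ univ.erase i0, (- hH.eigenvalues i) := by
    rw [hcp, ← Finset.mul_prod_erase univ _ (Finset.mem_univ i0), hi0']
    simp only [RCLike.ofReal_real_eq_id, id_eq, map_zero, sub_zero]
    refine (Polynomial.coeff_X_mul _ 0).trans ?_
    rw [Polynomial.coeff_zero_prod]
    simp
  have hsum : ∑ i, mob K (univ.erase i) = ∏ i ∈ univ.erase i0, hH.eigenvalues i := by
    simp only [mob_erase, hdet, sub_zero]
    rw [sum_pminor_erase, hcoeff]
    rw [Finset.prod_neg]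
    simp only [Finset.card_erase_of_mem (Finset.mem_univ _), Finset.card_univ, Fintype.card_fin,
      Nat.add_sub_cancel]
    rw [← mul_assoc, ← pow_add, ← two_mul, pow_mul]
    simp
  have hnn : ∀ S, 0 ≤ mob K S := mob_nonneg ⟨hH, hev⟩
  rw [likelihood_trainingSet]
  have hk' : (0:ℝ) < (k:ℝ) + 1 := by positivity
  calc mob K ∅ ^ n * ∏ i, mob K (univ.erase i)
      ≤ mob K ∅ ^ n * ((∑ i, mob K (univ.erase i)) / (k+1)) ^ (k+1) :=
        mul_le_mul_of_nonneg_left (amgm _ fun i => hnn _) (pow_nonneg (hnn _) _)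
    _ = (∏ i ∈ univ.erase i0, ((1 - hH.eigenvalues i) ^ n * hH.eigenvalues i ^ (k+1))) /
          ((k:ℝ)+1) ^ (k+1) := by
        rw [h0, hsum, div_pow, Finset.prod_mul_distrib, Finset.prod_pow, Finset.prod_pow]
        ring
    _ ≤ (∏ i ∈ univ.erase i0, (((k:ℝ)+1) / (Real.exp 1 * n)) ^ (k+1)) / ((k:ℝ)+1) ^ (k+1) := by
        apply div_le_div_of_nonneg_right _ (by positivity)
        apply Finset.prod_le_prod
        · intro i _
          have := hev i
          exact mul_nonneg (pow_nonneg (by linarith [this.2]) _) (pow_nonneg this.1 _)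
        · intro i _
          exact one_var_bound n k hn _ (hev i).1 (hev i).2
    _ = _ := by
        rw [Finset.prod_const, Finset.card_erase_of_mem (Finset.mem_univ _)]
        simp only [Finset.card_univ, Fintype.card_fin, Nat.add_sub_cancel]
        rw [div_pow _ ((k:ℝ)+1), ← pow_mul, ← pow_mul, mul_comm k (k+1)]

theorem isMarginalKernel_smul_one {c : ℝ} (h0 : 0 ≤ c) (h1 : c ≤ 1) :
    IsMarginalKernel (c • (1 : Matrix (Fin N) (Fin N) ℝ)) := by
  rw [marginal_iff]
  refine ⟨Matrix.PosSemidef.one.smul h0, ?_⟩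
  have : (1 : Matrix (Fin N) (Fin N) ℝ) - c • 1 = (1 - c) • 1 := by
    rw [sub_smul, one_smul]
  rw [this]
  exact Matrix.PosSemidef.one.smul (by linarith)

theorem likelihood_smul_one (k n : ℕ) (c : ℝ) :
    likelihood (trainingSet k n) (mob (c • (1 : Matrix (Fin (k+1)) (Fin (k+1)) ℝ))) =
      ((1 - c) ^ (n + 1) * c ^ k) ^ (k+1) := by
  rw [likelihood_trainingSet]
  have h1 : mob (c • (1 : Matrix (Fin (k+1)) (Fin (k+1)) ℝ)) ∅ = (1 - c) ^ (k+1) := by
    rw [mob_empty]
    have : (1 : Matrix (Fin (k+1)) (Fin (k+1)) ℝ) - c • 1 = (1 - c) • 1 := by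
      rw [sub_smul, one_smul]
    rw [this, Matrix.det_smul]
    simp
  have h2 : ∀ i, mob (c • (1 : Matrix (Fin (k+1)) (Fin (k+1)) ℝ)) (univ.erase i) =
      c ^ k * (1 - c) := by
    intro i
    rw [mob_erase, pminor_smul, Matrix.det_smul]
    have : pminor (1 : Matrix (Fin (k+1)) (Fin (k+1)) ℝ) (univ.erase i) = 1 := by
      unfold pminor
      rw [Matrix.submatrix_one _ Subtype.val_injective]
      simp
    rw [this]
    simp
    ring
  rw [h1]
  simp only [h2, Finset.prod_const, Finset.card_univ, Fintype.card_fin]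
  rw [mul_pow, mul_pow, ← pow_mul, ← pow_mul, ← pow_mul, mul_comm (k+1) n, pow_mul, pow_mul,
    pow_mul, pow_succ (1-c) n, mul_pow]
  ring

theorem key_ineq {k : ℕ} (hk : 2 ≤ k) : ((k:ℝ)+1) ^ (k-1) < (k:ℝ) ^ k := by
  rcases Nat.lt_or_ge k 3 with h | h
  · have : k = 2 := by omega
    subst this; norm_num
  · have hk0 : (0:ℝ) < k := by positivity
    have h1 : ((k:ℝ)+1) = k * (1 + 1 / k) := by field_simp
    have h2 : (1 + 1 / (k:ℝ)) ^ (k-1) < 3 := by
      calc (1 + 1 / (k:ℝ)) ^ (k-1) ≤ (Real.exp (1/k)) ^ (k-1) := by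
            apply pow_le_pow_left₀ (by positivity)
            have := Real.add_one_le_exp (1 / (k:ℝ)); linarith
        _ = Real.exp ((k-1 : ℕ) * (1 / k)) := by rw [← Real.exp_nat_mul]
        _ ≤ Real.exp 1 := by
            apply Real.exp_le_exp.2
            rw [mul_one_div, div_le_one hk0]
            exact_mod_cast Nat.sub_le k 1
        _ < 3 := by
            have := Real.exp_one_lt_d9
            linarith
    have h3 : (3:ℝ) ≤ k := by exact_mod_cast h
    obtain ⟨j, rfl⟩ : ∃ j, k = j + 1 := ⟨k - 1, by omega⟩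
    rw [h1, mul_pow]
    simp only [Nat.add_sub_cancel] at h2 ⊢
    rw [pow_succ ((j+1 : ℕ):ℝ) j]
    exact mul_lt_mul_of_pos_left (h2.trans_le h3) (by positivity)

theorem exists_n {k : ℕ} (hk : 2 ≤ k) : ∃ n : ℕ, k < n ∧
    (((k:ℝ)+1) / (Real.exp 1 * n)) ^ k / ((k:ℝ)+1) <
      (1 - (k:ℝ) / n) ^ (n + 1) * ((k:ℝ) / n) ^ k := by
  have hk0 : (0:ℝ) < k := by
    have : 0 < k := by omega
    exact_mod_cast this
  -- (1 - k/n)^(n+1) * exp k * k^k → k^k
  have hlim1 := Real.tendsto_one_add_div_pow_exp (-(k:ℝ))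
  have hlim2 : Filter.Tendsto (fun n : ℕ => 1 + (-(k:ℝ)) / n) Filter.atTop (nhds (1 + 0)) := by
    apply Filter.Tendsto.const_add
    exact tendsto_const_div_atTop_nhds_zero_nat _
  have hlim3 := hlim1.mul hlim2
  have hlim4 := hlim3.mul_const (Real.exp k * (k:ℝ)^k)
  have hval : Real.exp (-(k:ℝ)) * (1 + 0) * (Real.exp k * (k:ℝ)^k) = (k:ℝ)^k := by
    rw [add_zero, mul_one, ← mul_assoc, ← Real.exp_add]; simp
  rw [hval] at hlim4
  have hev := (hlim4.eventually (lt_mem_nhds (key_ineq hk))).and (Filter.eventually_gt_atTop k)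
  obtain ⟨n, hn1, hn2⟩ := hev.exists
  refine ⟨n, hn2, ?_⟩
  have hn0 : (0:ℝ) < n := by
    have : 0 < n := by omega
    exact_mod_cast this
  have e1 : (((k:ℝ)+1) / (Real.exp 1 * n)) ^ k / ((k:ℝ)+1) =
      ((k:ℝ)+1)^(k-1) * (1 / (Real.exp k * (n:ℝ)^k)) := by
    obtain ⟨j, rfl⟩ : ∃ j, k = j + 1 := ⟨k - 1, by omega⟩
    simp only [Nat.add_sub_cancel]
    rw [div_pow, mul_pow, ← Real.exp_nat_mul, mul_one, pow_succ (((j+1:ℕ):ℝ)+1)]
    field_simp
  have e2 : (1 - (k:ℝ) / n) ^ (n + 1) * ((k:ℝ) / n) ^ k =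
      ((1 + -(k:ℝ) / n) ^ n * (1 + -(k:ℝ) / n) * (Real.exp k * (k:ℝ)^k)) *
        (1 / (Real.exp k * (n:ℝ)^k)) := by
    rw [div_pow, ← pow_succ]
    have : 1 + -(k:ℝ) / n = 1 - k / n := by ring
    rw [this]
    have := (Real.exp_pos (k:ℝ)).ne'
    field_simp
  rw [e1, e2]
  exact mul_lt_mul_of_pos_right hn1 (by positivity)

end aux

/-- For every `k ≥ 2` there is a training set of subsets of `{1, ..., k+1}`, each with at most `k`
elements, for which maximum-likelihood marginal kernels exist and all have rank larger than `k`. -/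
theorem result : ∀ k : ℕ, 2 ≤ k → ∃ (m : ℕ) (X : Fin m → Finset (Fin (k + 1))),
    (∀ t, (X t).card ≤ k) ∧ (∃ K, IsOptimal X K) ∧ ∀ K, IsOptimal X K → k < K.rank := by
  intro k hk
  obtain ⟨n, hn, hlt⟩ := exists_n hk
  refine ⟨n + (k + 1), trainingSet k n, card_trainingSet k n, exists_optimal _, ?_⟩
  rintro K ⟨hK, p, hp, hmax⟩
  by_contra hr
  push Not at hr
  have hn0 : 0 < n := by omega
  have hn0' : (0:ℝ) < n := by exact_mod_cast hn0
  have h1 := low_rank_bound hn0 K hK hr
  rw [hp.eq] at hmax
  have hc0 : (0:ℝ) ≤ (k:ℝ) / n := by positivity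
  have hc1 : (k:ℝ) / n ≤ 1 := by
    rw [div_le_one hn0']
    exact_mod_cast hn.le
  have hD := isMarginalKernel_smul_one (N := k+1) hc0 hc1
  have h2 := hmax _ _ hD (isDPP_mob hD)
  rw [likelihood_smul_one] at h2
  have h3 := h2.trans h1
  have h4 : ((((k:ℝ)+1) / (Real.exp 1 * n)) ^ k / ((k:ℝ)+1)) ^ (k+1) <
      ((1 - (k:ℝ) / n) ^ (n + 1) * ((k:ℝ) / n) ^ k) ^ (k+1) := by
    apply pow_lt_pow_left₀ hlt (by positivity) (by omega)
  linarith

end Pool.Agent.Results.MP_dbbe21_pr.RankDisproof
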